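import Mathlib
import Pool.Agent.Helper929.Pfaffian

/-! The Pfaffian as a sum over permutations. -/

set_option autoImplicit false

namespace Pool.Agent.Helper395.AC

open Finset Matrix Pool.Agent.Helper929

variable {R : Type*} [CommRing R]

/-- insert a value in front of a permutation -/
def glue {m : ℕ} (j : Fin (m + 1)) (τ : Equiv.Perm (Fin m)) : Equiv.Perm (Fin (m + 1)) :=
  (Fin.cycleRange j).symm * Equiv.Perm.decomposeFin.symm (0, τ)

theorem glue_zero {m : ℕ} (j : Fin (m + 1)) (τ : Equiv.Perm (Fin m)) : glue j τ 0 = j := by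
  rw [glue, Equiv.Perm.mul_apply, Equiv.Perm.decomposeFin_symm_apply_zero]
  exact Fin.cycleRange_symm_zero j

theorem glue_succ {m : ℕ} (j : Fin (m + 1)) (τ : Equiv.Perm (Fin m)) (k : Fin m) :
    glue j τ k.succ = j.succAbove (τ k) := by
  rw [glue, Equiv.Perm.mul_apply, Equiv.Perm.decomposeFin_symm_apply_succ, Equiv.swap_self]
  exact Fin.cycleRange_symm_succ j (τ k)

theorem sign_glue {m : ℕ} (j : Fin (m + 1)) (τ : Equiv.Perm (Fin m)) :
    (Equiv.Perm.sign (glue j τ) : ℤˣ) = (-1) ^ (j : ℕ) * Equiv.Perm.sign τ := by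
  rw [glue, Equiv.Perm.sign_mul, Equiv.Perm.decomposeFin.symm_sign, Equiv.Perm.sign_symm,
    Fin.sign_cycleRange]
  simp

theorem glue_inj {m : ℕ} : Function.Injective
    (fun x : Fin (m + 1) × Equiv.Perm (Fin m) => glue x.1 x.2) := by
  rintro ⟨j, τ⟩ ⟨j', τ'⟩ h
  simp only at h
  have h0 : j = j' := by rw [← glue_zero j τ, h, glue_zero]
  subst h0
  have h1 : τ = τ' := by
    ext k
    have h2 := glue_succ j τ k
    rw [h, glue_succ] at h2
    rw [Fin.succAbove_right_injective h2]
  rw [h1]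

theorem glue_bij {m : ℕ} : Function.Bijective
    (fun x : Fin (m + 1) × Equiv.Perm (Fin m) => glue x.1 x.2) := by
  rw [Fintype.bijective_iff_injective_and_card]
  refine ⟨glue_inj, ?_⟩
  rw [Fintype.card_prod, Fintype.card_perm, Fintype.card_perm, Fintype.card_fin, Fintype.card_fin,
    Nat.factorial_succ]

theorem sum_glue {m : ℕ} (F : Equiv.Perm (Fin (m + 1)) → R) :
    ∑ ρ : Equiv.Perm (Fin (m + 1)), ((Equiv.Perm.sign ρ : ℤ) : R) * F ρ =
      ∑ j : Fin (m + 1), (-1) ^ (j : ℕ) *
        ∑ τ : Equiv.Perm (Fin m), ((Equiv.Perm.sign τ : ℤ) : R) * F (glue j τ) := by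
  rw [← (Equiv.ofBijective _ (glue_bij (m := m))).sum_comp, Fintype.sum_prod_type]
  refine sum_congr rfl fun j _ => ?_
  rw [mul_sum]
  refine sum_congr rfl fun τ _ => ?_
  rw [Equiv.ofBijective_apply, sign_glue, ← mul_assoc]
  push_cast
  rfl

/-- the product over consecutive pairs -/
def pairProd : (n : ℕ) → {α : Type} → (A : α → α → R) → (w : Fin (2 * n) → α) → R
  | 0, _, _, _ => 1
  | n + 1, _, A, w => A (w (0 : Fin (2 * n + 2))) (w (1 : Fin (2 * n + 2))) *
      pairProd n A (fun k : Fin (2 * n) => w (k.succ.succ : Fin (2 * n + 2)))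

/-- the sum over all permutations -/
def pfSum (n : ℕ) (A : Matrix (Fin (2 * n)) (Fin (2 * n)) R) : R :=
  ∑ σ : Equiv.Perm (Fin (2 * n)), ((Equiv.Perm.sign σ : ℤ) : R) * pairProd n A σ

theorem pairProd_comp {α β : Type} (n : ℕ) (A : α → α → R) (e : β → α) (w : Fin (2 * n) → β) :
    pairProd n A (fun k => e (w k)) = pairProd n (fun x y => A (e x) (e y)) w := by
  induction n with
  | zero => rfl
  | succ n ih => simp only [pairProd]; rw [ih]

theorem pairProd_eq {α : Type} (n : ℕ) (A : α → α → R) (w : Fin (2 * n) → α) :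
    pairProd n A w = ∏ k : Fin n, A (w ⟨2 * k, by omega⟩) (w ⟨2 * k + 1, by omega⟩) := by
  induction n with
  | zero => simp [pairProd]
  | succ n ih => rw [Fin.prod_univ_succ, pairProd, ih]; rfl

theorem pfSum_succ (n : ℕ) (A : Matrix (Fin (2 * (n + 1))) (Fin (2 * (n + 1))) R) :
    pfSum (n + 1) A = ∑ i : Fin (2 * n + 2), (-1) ^ (i : ℕ) * ∑ j : Fin (2 * n + 1),
      (-1) ^ (j : ℕ) * (A i (i.succAbove j) *
        pfSum n (A.submatrix (fun k => i.succAbove (j.succAbove k))
          (fun k => i.succAbove (j.succAbove k)))) := by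
  have h1 : pfSum (n + 1) A = ∑ σ : Equiv.Perm (Fin (2 * n + 1 + 1)),
      ((Equiv.Perm.sign σ : ℤ) : R) * pairProd (n + 1) A σ := rfl
  rw [h1, sum_glue]
  refine sum_congr rfl fun i _ => ?_
  congr 1
  rw [sum_glue]
  refine sum_congr rfl fun j _ => ?_
  congr 1
  rw [pfSum, mul_sum]
  refine sum_congr rfl fun τ _ => ?_
  have e0 : (glue i (glue j τ)) (0 : Fin (2 * n + 1 + 1)) = i := glue_zero _ _
  have e1 : (glue i (glue j τ)) (1 : Fin (2 * n + 1 + 1)) = i.succAbove j := by
    have := glue_succ i (glue j τ) 0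
    rw [glue_zero] at this
    exact this
  have e2 : ∀ k : Fin (2 * n), (glue i (glue j τ)) (k.succ.succ : Fin (2 * n + 1 + 1)) =
      i.succAbove (j.succAbove (τ k)) := by
    intro k
    rw [glue_succ, glue_succ]
  have e3 : pairProd n A (fun k : Fin (2 * n) => (glue i (glue j τ)) (k.succ.succ)) =
      pairProd n (A.submatrix (fun k => i.succAbove (j.succAbove k))
          (fun k => i.succAbove (j.succAbove k))) τ := by
    have : (fun k : Fin (2 * n) => (glue i (glue j τ)) (k.succ.succ)) =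
      fun k => (fun l => i.succAbove (j.succAbove l)) (τ k) := by
      funext k; exact e2 k
    exact (congrArg (pairProd n A) this).trans
      (pairProd_comp n A (fun l : Fin (2 * n) => i.succAbove (j.succAbove l)) τ)
  have e4 : pairProd (n + 1) A (glue i (glue j τ)) = A i (i.succAbove j) *
      pairProd n (A.submatrix (fun k => i.succAbove (j.succAbove k))
          (fun k => i.succAbove (j.succAbove k))) τ :=
    congrArg₂ (· * ·) (congrArg₂ A e0 e1) e3
  refine Eq.trans (congrArg _ e4) ?_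
  ring

/-- alternating matrices -/
def Alt {n : ℕ} (A : Matrix (Fin n) (Fin n) R) : Prop :=
  (∀ i, A i i = 0) ∧ ∀ i j, A i j = - A j i

theorem Alt.submatrix {n m : ℕ} {A : Matrix (Fin n) (Fin n) R} (h : Alt A) (e : Fin m → Fin n) :
    Alt (A.submatrix e e) :=
  ⟨fun i => h.1 _, fun i j => h.2 _ _⟩

theorem toBilin_self' {n : ℕ} (A : Matrix (Fin n) (Fin n) R) (hA : Alt A)
    (x : Fin n → R) : Matrix.toBilin' A x x = 0 := by
  rw [Matrix.toBilin'_apply, ← Finset.sum_product']
  refine Finset.sum_involution (fun p _ => (p.2, p.1)) ?_ ?_ ?_ ?_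
  · intro p _
    simp only
    rw [hA.2 p.2 p.1]
    ring
  · intro p _ hp h
    have h1 : p.1 = p.2 := (congrArg Prod.snd h)
    apply hp
    rw [h1, hA.1]
    ring
  · intro p _
    simp
  · intro p _
    rfl

theorem pf_gram' {n : ℕ} (A : Matrix (Fin n) (Fin n) R) (hA : Alt A)
    (P : Matrix (Fin n) (Fin n) R) : pf n (P * A * Pᵀ) = P.det * pf n A := by
  have h1 := pfE_eq (Matrix.toBilin' A) (toBilin_self' A hA) n (fun i => P i)
  have h2 := pfE_eq (Matrix.toBilin' A) (toBilin_self' A hA) n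
    (fun i => (Pi.basisFun R (Fin n)) i)
  have h3 := (pfE (Matrix.toBilin' A) (toBilin_self' A hA) n).eq_smul_basis_det
    (Pi.basisFun R (Fin n))
  have h4 : (Matrix.of fun i j => Matrix.toBilin' A (P i) (P j)) = P * A * Pᵀ := by
    ext i j
    rw [Matrix.of_apply, Matrix.toBilin'_apply, Matrix.mul_apply]
    simp_rw [Matrix.mul_apply, Matrix.transpose_apply, Finset.sum_mul]
    rw [Finset.sum_comm]
  have h5 : (Matrix.of fun i j => Matrix.toBilin' A ((Pi.basisFun R (Fin n)) i)
      ((Pi.basisFun R (Fin n)) j)) = A := by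
    ext i j
    simp [Matrix.toBilin'_single]
  rw [h4] at h1
  rw [h5] at h2
  have h6 : pfE (Matrix.toBilin' A) (toBilin_self' A hA) n (fun i => P i) =
      pfE (Matrix.toBilin' A) (toBilin_self' A hA) n (fun i => (Pi.basisFun R (Fin n)) i) *
        P.det := by
    conv_lhs => rw [h3]
    rw [AlternatingMap.smul_apply, Pi.basisFun_det_apply, smul_eq_mul]
    rfl
  rw [← h1, ← h2, h6, mul_comm]

theorem pf_perm' {n : ℕ} (A : Matrix (Fin n) (Fin n) R) (hA : Alt A)
    (σ : Equiv.Perm (Fin n)) : pf n (A.submatrix σ σ) = ((Equiv.Perm.sign σ : ℤ) : R) * pf n A := by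
  have h := pf_gram' A hA (σ.permMatrix R)
  have h1 : σ.permMatrix R * A * (σ.permMatrix R)ᵀ = A.submatrix σ σ := by
    rw [Matrix.transpose_permMatrix, Equiv.Perm.permMatrix, Equiv.Perm.permMatrix,
      PEquiv.toMatrix_toPEquiv_mul, PEquiv.mul_toMatrix_toPEquiv]
    rfl
  rw [h1] at h
  rw [h, Matrix.det_permutation]

theorem pf_row {n : ℕ} (A : Matrix (Fin (n + 2)) (Fin (n + 2)) R) (hA : Alt A) (i : Fin (n + 2)) :
    ∑ j : Fin (n + 1), (-1) ^ (j : ℕ) * (A i (i.succAbove j) *
      pf n (A.submatrix (fun k => i.succAbove (j.succAbove k))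
        (fun k => i.succAbove (j.succAbove k)))) = (-1) ^ (i : ℕ) * pf (n + 2) A := by
  have h := pf_perm' A hA (Fin.cycleRange i).symm
  rw [Equiv.Perm.sign_symm, Fin.sign_cycleRange] at h
  have h2 : (-1 : R) ^ (i : ℕ) * pf (n + 2) A = pf (n + 2)
      (A.submatrix (Fin.cycleRange i).symm (Fin.cycleRange i).symm) := by
    rw [h]; push_cast; rfl
  rw [h2, pf]
  refine sum_congr rfl fun j _ => ?_
  rw [mul_assoc]
  congr 1
  rw [Matrix.submatrix_apply, Matrix.submatrix_submatrix, Fin.cycleRange_symm_zero,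
    Fin.cycleRange_symm_succ]
  congr 2
  have e : (⇑(Fin.cycleRange i).symm ∘ fun k : Fin n => (j.succAbove k).succ) =
      fun k => i.succAbove (j.succAbove k) := by
    funext k
    exact Fin.cycleRange_symm_succ i _
  rw [e]

theorem pfSum_eq : ∀ (n : ℕ) (A : Matrix (Fin (2 * n)) (Fin (2 * n)) R), Alt A →
    pfSum n A = 2 ^ n * (n.factorial : R) * pf (2 * n) A
  | 0, A, _ => by
    rw [pfSum]
    simp [pairProd, pf]
  | n + 1, A, hA => by
    rw [pfSum_succ]
    have h1 : ∀ (i : Fin (2 * n + 2)) (j : Fin (2 * n + 1)),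
        pfSum n (A.submatrix (fun k => i.succAbove (j.succAbove k))
          (fun k => i.succAbove (j.succAbove k))) = 2 ^ n * (n.factorial : R) *
        pf (2 * n) (A.submatrix (fun k => i.succAbove (j.succAbove k))
          (fun k => i.succAbove (j.succAbove k))) := fun i j => pfSum_eq n _ (hA.submatrix _)
    have h2 : ∀ i : Fin (2 * n + 2), (-1) ^ (i : ℕ) * ∑ j : Fin (2 * n + 1),
      (-1) ^ (j : ℕ) * (A i (i.succAbove j) *
        pfSum n (A.submatrix (fun k => i.succAbove (j.succAbove k))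
          (fun k => i.succAbove (j.succAbove k)))) =
        2 ^ n * (n.factorial : R) * pf (2 * n + 2) A := by
      intro i
      have h3 := pf_row (n := 2 * n) A hA i
      have h4 : ((-1 : R) ^ (i : ℕ)) * (-1) ^ (i : ℕ) = 1 := by
        rw [← mul_pow]; simp
      calc _ = (-1) ^ (i : ℕ) * (2 ^ n * (n.factorial : R) * ∑ j : Fin (2 * n + 1),
          (-1) ^ (j : ℕ) * (A i (i.succAbove j) *
          pf (2 * n) (A.submatrix (fun k => i.succAbove (j.succAbove k))
          (fun k => i.succAbove (j.succAbove k))))) := by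
            congr 1
            rw [mul_sum]
            refine sum_congr rfl fun j _ => ?_
            rw [h1]
            ring
        _ = _ := by
            rw [h3]
            linear_combination (2 ^ n * (n.factorial : R) * pf (2 * n + 2) A) * h4
    rw [sum_congr rfl fun i _ => h2 i, sum_const, card_univ, Fintype.card_fin, nsmul_eq_mul,
      Nat.factorial_succ]
    have h5 : pf (2 * (n + 1)) A = pf (2 * n + 2) A := rfl
    rw [h5]
    push_cast
    ring

end Pool.Agent.Helper395.AC
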