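import Pool.Agent.Helper395.AC.Poly
import Pool.Agent.Helper395.AC.PfSum

/-! Banded Pfaffians and the change of basis. -/

set_option autoImplicit false

namespace Pool.Agent.Helper395.AC

open Finset Matrix Polynomial Pool.Agent.Helper929

variable {R : Type*} [CommRing R]

theorem pf_tri {n : ℕ} (A : Matrix (Fin (n + 2)) (Fin (n + 2)) R)
    (h0 : ∀ j : Fin n, A 0 j.succ.succ = 0) :
    pf (n + 2) A = A 0 1 * pf n (A.submatrix (fun k => k.succ.succ) (fun k => k.succ.succ)) := by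
  rw [pf, Fin.sum_univ_succ, sum_eq_zero]
  · simp
  · intro j _
    rw [h0]; ring

theorem pf_penta {n : ℕ} (A : Matrix (Fin (n + 4)) (Fin (n + 4)) R)
    (h0 : ∀ j : Fin (n + 1), A 0 j.succ.succ.succ = 0)
    (h1 : ∀ j : Fin n, A 1 j.succ.succ.succ.succ = 0) :
    pf (n + 4) A = A 0 1 * pf (n + 2) (A.submatrix (fun k => k.succ.succ) (fun k => k.succ.succ)) -
      A 0 2 * A 1 3 * pf n (A.submatrix (fun k => k.succ.succ.succ.succ)
        (fun k => k.succ.succ.succ.succ)) := by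
  have e1 : pf (n + 2) (A.submatrix (fun k => ((1 : Fin (n + 3)).succAbove k).succ)
      (fun k => ((1 : Fin (n + 3)).succAbove k).succ)) = A 1 3 *
      pf n (A.submatrix (fun k => k.succ.succ.succ.succ) (fun k => k.succ.succ.succ.succ)) := by
    rw [pf_tri]
    · congr 1
    · intro j
      exact h1 j
  rw [pf, Fin.sum_univ_succ, Fin.sum_univ_succ, sum_eq_zero]
  · have e2 : (Fin.succ 0 : Fin (n + 3)) = 1 := rfl
    rw [e2, e1]
    have e3 : (Fin.succ 1 : Fin (n + 4)) = 2 := rfl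
    rw [e3]
    simp
    ring
  · intro j _
    rw [h0]; ring

variable (a q : R)

theorem B1_add_left (f f' g : R[X]) : B1 a q (f + f') g = B1 a q f g + B1 a q f' g := by
  rw [B1, B1, B1, ← map_add, map_add]; congr 1; ring

theorem B1_add_right (f g g' : R[X]) : B1 a q f (g + g') = B1 a q f g + B1 a q f g' := by
  rw [B1, B1, B1, ← map_add, map_add]; congr 1; ring

theorem B1_smul_left (c : R) (f g : R[X]) : B1 a q (c • f) g = c • B1 a q f g := by
  have h : dl q (c • f) * g - c • f * dl q g = c • (dl q f * g - f * dl q g) := by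
    rw [map_smul, smul_sub, smul_mul_assoc, smul_mul_assoc]
  rw [B1, h, map_smul]; rfl

theorem B1_smul_right (c : R) (f g : R[X]) : B1 a q f (c • g) = c • B1 a q f g := by
  have h : dl q f * c • g - f * dl q (c • g) = c • (dl q f * g - f * dl q g) := by
    rw [map_smul, smul_sub, mul_smul_comm, mul_smul_comm]
  rw [B1, h, map_smul]; rfl

/-- first form, bilinear -/
noncomputable def F1 : R[X] →ₗ[R] R[X] →ₗ[R] R :=
  LinearMap.mk₂ R (B1 a q) (B1_add_left a q) (B1_smul_left a q) (B1_add_right a q)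
    (B1_smul_right a q)

theorem B2_add_left (f f' g : R[X]) : B2 a q (f + f') g = B2 a q f g + B2 a q f' g := by
  rw [B2, B2, B2, ← map_add, map_add]; congr 1; ring

theorem B2_add_right (f g g' : R[X]) : B2 a q f (g + g') = B2 a q f g + B2 a q f g' := by
  rw [B2, B2, B2, ← map_add, map_add]; congr 1; ring

theorem B2_smul_left (c : R) (f g : R[X]) : B2 a q (c • f) g = c • B2 a q f g := by
  have h : X * (dl q (c • f) * g - c • f * dl q g) = c • (X * (dl q f * g - f * dl q g)) := by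
    rw [map_smul, ← mul_smul_comm, smul_sub, smul_mul_assoc, smul_mul_assoc]
  rw [B2, h, map_smul]; rfl

theorem B2_smul_right (c : R) (f g : R[X]) : B2 a q f (c • g) = c • B2 a q f g := by
  have h : X * (dl q f * c • g - f * dl q (c • g)) = c • (X * (dl q f * g - f * dl q g)) := by
    rw [map_smul, ← mul_smul_comm, smul_sub, mul_smul_comm, mul_smul_comm]
  rw [B2, h, map_smul]; rfl

/-- second form, bilinear -/
noncomputable def F2 : R[X] →ₗ[R] R[X] →ₗ[R] R :=
  LinearMap.mk₂ R (B2 a q) (B2_add_left a q) (B2_smul_left a q) (B2_add_right a q)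
    (B2_smul_right a q)

theorem B1_skew (f g : R[X]) : B1 a q f g = - B1 a q g f := by
  rw [B1, B1, ← map_neg]; congr 1; ring

theorem B2_skew (f g : R[X]) : B2 a q f g = - B2 a q g f := by
  rw [B2, B2, ← map_neg]; congr 1; ring

theorem B1_self (f : R[X]) : B1 a q f f = 0 := by
  rw [B1, mul_comm, sub_self, map_zero]

theorem B2_self (f : R[X]) : B2 a q f f = 0 := by
  rw [B2, mul_comm f, sub_self, mul_zero, map_zero]

/-- Gram matrix on monomials -/
noncomputable def GM (N : ℕ) (B : R[X] →ₗ[R] R[X] →ₗ[R] R) : Matrix (Fin N) (Fin N) R :=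
  Matrix.of fun i j => B (X ^ (i : ℕ)) (X ^ (j : ℕ))

/-- reversed Gram matrix on the orthogonal polynomials -/
noncomputable def GU (N : ℕ) (B : R[X] →ₗ[R] R[X] →ₗ[R] R) : Matrix (Fin N) (Fin N) R :=
  Matrix.of fun i j => B (U a q (N - 1 - i)) (U a q (N - 1 - j))

/-- reversed change of basis -/
noncomputable def PM (N : ℕ) : Matrix (Fin N) (Fin N) R :=
  Matrix.of fun i j => (U a q (N - 1 - i)).coeff j

theorem expand {N : ℕ} {f : R[X]} (hf : f.natDegree < N) :
    f = ∑ k : Fin N, f.coeff k • (X : R[X]) ^ (k : ℕ) := by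
  conv_lhs => rw [f.as_sum_range_C_mul_X_pow' hf]
  rw [Finset.sum_range]
  refine sum_congr rfl fun k _ => ?_
  rw [C_mul']

theorem gram (N : ℕ) (B : R[X] →ₗ[R] R[X] →ₗ[R] R) :
    PM a q N * GM N B * (PM a q N)ᵀ = GU a q N B := by
  ext i j
  have hi : (U a q (N - 1 - i)).natDegree < N := by
    have := (U_deg a q (N - 1 - i)).1
    have := i.2
    omega
  have hj : (U a q (N - 1 - j)).natDegree < N := by
    have := (U_deg a q (N - 1 - j)).1
    have := j.2
    omega
  have e : GU a q N B i j = B (U a q (N - 1 - i)) (U a q (N - 1 - j)) := rfl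
  rw [e, expand hi, expand hj]
  simp only [map_sum, LinearMap.sum_apply, map_smul, LinearMap.smul_apply, smul_eq_mul,
    Matrix.mul_apply, Matrix.transpose_apply, Finset.sum_mul]
  refine sum_congr rfl fun k _ => ?_
  rw [mul_sum]
  refine sum_congr rfl fun l _ => ?_
  rw [PM, GM, Matrix.of_apply, Matrix.of_apply, Matrix.of_apply]
  ring

theorem det_PM_succ (N : ℕ) : (PM a q (N + 1)).det = (-1) ^ N * (PM a q N).det := by
  rw [Matrix.det_succ_column _ (Fin.last N), Fin.sum_univ_succ, sum_eq_zero, add_zero]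
  · have e : (PM a q (N + 1)).submatrix (Fin.succAbove 0) (Fin.last N).succAbove = PM a q N := by
      ext i j
      rw [Matrix.submatrix_apply, PM, PM, Matrix.of_apply, Matrix.of_apply, Fin.succAbove_zero,
        Fin.succAbove_last, Fin.val_succ, Fin.val_castSucc]
      congr 2
      omega
    rw [e, PM, Matrix.of_apply]
    have h := (U_deg a q N).2
    simp [h]
  · intro i _
    have h : PM a q (N + 1) i.succ (Fin.last N) = 0 := by
      rw [PM, Matrix.of_apply, Fin.val_last, Fin.val_succ]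
      refine coeff_eq_zero_of_natDegree_lt ?_
      have h1 := (U_deg a q (N + 1 - 1 - (i + 1))).1
      have h2 := i.2
      omega
    rw [h]; ring

theorem det_PM (n : ℕ) : (PM a q (2 * n)).det = (-1) ^ n := by
  induction n with
  | zero => simp
  | succ n ih =>
    have h : (PM a q (2 * (n + 1))).det = (PM a q (2 * n + 1 + 1)).det := rfl
    rw [h, det_PM_succ, det_PM_succ, ih]
    have h2 : ((-1 : R) ^ n) * (-1) ^ n = 1 := by rw [← mul_pow]; simp
    rw [pow_succ, pow_succ, pow_mul]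
    simp

theorem pf_GM (n : ℕ) (B : R[X] →ₗ[R] R[X] →ₗ[R] R) (hB0 : ∀ f, B f f = 0)
    (hB : ∀ f g, B f g = - B g f) :
    pf (2 * n) (GM (2 * n) B) = (-1) ^ n * pf (2 * n) (GU a q (2 * n) B) := by
  rw [← gram, pf_gram' (GM (2 * n) B) ⟨fun i => hB0 _, fun i j => hB _ _⟩, det_PM, ← mul_assoc,
    ← mul_pow]
  simp

theorem GU_sub (N : ℕ) (B : R[X] →ₗ[R] R[X] →ₗ[R] R) :
    (GU a q (N + 2) B).submatrix (fun k => k.succ.succ) (fun k => k.succ.succ) = GU a q N B := by
  ext i j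
  rw [Matrix.submatrix_apply, GU, GU, Matrix.of_apply, Matrix.of_apply]
  simp only [Fin.val_succ]
  rw [show N + 2 - 1 - ((i : ℕ) + 1 + 1) = N - 1 - i by omega,
    show N + 2 - 1 - ((j : ℕ) + 1 + 1) = N - 1 - j by omega]

theorem D1_succ (n : ℕ) : pf (2 * (n + 1)) (GU a q (2 * (n + 1)) (F1 a q)) =
    (q ^ (2 * n + 1) - 1) * hh a q (2 * n) * pf (2 * n) (GU a q (2 * n) (F1 a q)) := by
  have h : pf (2 * (n + 1)) (GU a q (2 * (n + 1)) (F1 a q)) =
    pf (2 * n + 2) (GU a q (2 * n + 2) (F1 a q)) := rfl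
  rw [h, pf_tri, GU_sub]
  · congr 1
    exact B1_near a q (2 * n)
  · intro j
    rw [GU, Matrix.of_apply]
    refine B1_far a q ?_
    simp only [Fin.val_succ, Fin.val_zero]
    have := j.2
    omega

theorem D2_step (n : ℕ) : pf (2 * (n + 2)) (GU a q (2 * (n + 2)) (F2 a q)) =
    (q ^ (2 * n + 3) - 1) * ((1 + a) * q ^ (2 * n + 2) * hh a q (2 * n + 2)) *
      pf (2 * (n + 1)) (GU a q (2 * (n + 1)) (F2 a q)) -
    (q ^ (2 * n + 3) - 1) * hh a q (2 * n + 2) * ((q ^ (2 * n + 2) - 1) * hh a q (2 * n + 1)) *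
      pf (2 * n) (GU a q (2 * n) (F2 a q)) := by
  have h : pf (2 * (n + 2)) (GU a q (2 * (n + 2)) (F2 a q)) =
    pf (2 * n + 4) (GU a q (2 * n + 4) (F2 a q)) := rfl
  have hs : (GU a q (2 * n + 4) (F2 a q)).submatrix (fun k : Fin (2 * n) => k.succ.succ.succ.succ)
      (fun k => k.succ.succ.succ.succ) = GU a q (2 * n) (F2 a q) := by
    rw [← GU_sub a q (2 * n), ← GU_sub a q (2 * n + 2)]
    rfl
  rw [h, pf_penta, GU_sub, hs]
  · congr 1
    · congr 1
      exact B2_near a q (2 * n + 2)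
    · congr 1
      exact congrArg₂ (· * ·) (B2_two a q (2 * n + 1)) (B2_two a q (2 * n))
  · intro j
    rw [GU, Matrix.of_apply]
    refine B2_far a q ?_
    simp only [Fin.val_succ, Fin.val_zero]
    have := j.2
    omega
  · intro j
    rw [GU, Matrix.of_apply]
    refine B2_far a q ?_
    simp only [Fin.val_succ, Fin.val_one]
    have := j.2
    omega

/-- the common product -/
def TT (n : ℕ) : R := ∏ k ∈ range n, ((1 - q ^ (2 * k + 1)) * hh a q (2 * k))

theorem TT_succ (n : ℕ) : TT a q (n + 1) =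
    TT a q n * ((1 - q ^ (2 * n + 1)) * hh a q (2 * n)) := by
  rw [TT, prod_range_succ]; rfl

theorem D1_eq (n : ℕ) : pf (2 * n) (GU a q (2 * n) (F1 a q)) = (-1) ^ n * TT a q n := by
  induction n with
  | zero => simp [pf, TT]
  | succ n ih =>
    rw [D1_succ, ih, TT_succ, pow_succ]; ring

theorem hh_succ (k : ℕ) : hh a q (k + 1) = (-a) * q ^ k * (1 - q ^ (k + 1)) * hh a q k := by
  rw [hh, hh, choose_two_succ, poch_succ, pow_succ, pow_add]; ring

theorem D2_one : pf (2 * 1) (GU a q (2 * 1) (F2 a q)) = (-1) ^ 1 * TT a q 1 * ff a (q ^ 2) 1 := by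
  have h : pf (2 * 1) (GU a q (2 * 1) (F2 a q)) =
    pf (0 + 2) (GU a q (0 + 2) (F2 a q)) := rfl
  rw [h, pf_tri _ (fun j => j.elim0), GU_sub]
  have h1 : GU a q (0 + 2) (F2 a q) 0 1 = _ := B2_near a q 0
  rw [h1, pf, TT_succ, ff_one]
  simp [TT]
  ring

theorem D2_eq : ∀ n : ℕ, pf (2 * n) (GU a q (2 * n) (F2 a q)) =
    (-1) ^ n * TT a q n * ff a (q ^ 2) n
  | 0 => by rw [ff_zero]; simp [pf, TT]
  | 1 => D2_one a q
  | n + 2 => by
    have h1 := D2_eq (n + 1)
    have h0 := D2_eq n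
    rw [D2_step, h1, h0, ff_rec, TT_succ a q (n + 1), TT_succ a q n, hh_succ a q (2 * n)]
    rw [show 2 * (n + 1) + 1 = 2 * n + 3 by ring, show 2 * (n + 1) = 2 * n + 2 by ring]
    simp only [← pow_mul]
    ring

theorem pf1 (n : ℕ) : pf (2 * n) (GM (2 * n) (F1 a q)) = TT a q n := by
  rw [pf_GM a q n _ (B1_self a q) (B1_skew a q), D1_eq, ← mul_assoc, ← mul_pow]; simp

theorem pf2 (n : ℕ) : pf (2 * n) (GM (2 * n) (F2 a q)) = TT a q n * ff a (q ^ 2) n := by
  rw [pf_GM a q n _ (B2_self a q) (B2_skew a q), D2_eq, ← mul_assoc, ← mul_assoc, ← mul_pow]; simp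

theorem sum1 (n : ℕ) : ∑ σ : Equiv.Perm (Fin (2 * n)), ((Equiv.Perm.sign σ : ℤ) : R) *
    ∏ k : Fin n, ((q ^ (σ ⟨2 * k, by omega⟩ : ℕ) - q ^ (σ ⟨2 * k + 1, by omega⟩ : ℕ)) *
      gs a q ((σ ⟨2 * k, by omega⟩ : ℕ) + (σ ⟨2 * k + 1, by omega⟩ : ℕ) - 1)) =
    2 ^ n * (n.factorial : R) * TT a q n := by
  rw [← pf1 a q n, ← pfSum_eq n (GM (2 * n) (F1 a q)) ⟨fun i => B1_self a q _, fun i j => B1_skew a q _ _⟩, pfSum]
  refine sum_congr rfl fun σ _ => ?_
  congr 1
  refine Eq.trans ?_ (pairProd_eq n (GM (2 * n) (F1 a q)) σ).symm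
  refine prod_congr rfl fun k _ => ?_
  exact (B1_monomial a q _ _).symm

theorem sum2 (n : ℕ) : ∑ σ : Equiv.Perm (Fin (2 * n)), ((Equiv.Perm.sign σ : ℤ) : R) *
    ∏ k : Fin n, ((q ^ (σ ⟨2 * k, by omega⟩ : ℕ) - q ^ (σ ⟨2 * k + 1, by omega⟩ : ℕ)) *
      gs a q ((σ ⟨2 * k, by omega⟩ : ℕ) + (σ ⟨2 * k + 1, by omega⟩ : ℕ))) =
    2 ^ n * (n.factorial : R) * (TT a q n * ff a (q ^ 2) n) := by
  rw [← pf2 a q n, ← pfSum_eq n (GM (2 * n) (F2 a q)) ⟨fun i => B2_self a q _, fun i j => B2_skew a q _ _⟩, pfSum]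
  refine sum_congr rfl fun σ _ => ?_
  congr 1
  refine Eq.trans ?_ (pairProd_eq n (GM (2 * n) (F2 a q)) σ).symm
  refine prod_congr rfl fun k _ => ?_
  exact (B2_monomial a q _ _).symm

end Pool.Agent.Helper395.AC
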