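import Mathlib

/-! Gaussian binomials, Rogers-Szego polynomials and their recurrences. -/

set_option autoImplicit false

namespace Pool.Agent.Helper395.AC

open Finset

variable {R : Type*} [CommRing R]

/-- `(q;q)_m` -/
def poch (q : R) (m : ℕ) : R := ∏ i ∈ range m, (1 - q ^ (i + 1))

/-- the Gaussian binomial, by the `q`-Pascal rule -/
def gb (q : R) : ℕ → ℕ → R
  | _, 0 => 1
  | 0, _ + 1 => 0
  | m + 1, k + 1 => gb q m k + q ^ (k + 1) * gb q m (k + 1)

theorem gb_zero_right (q : R) (m : ℕ) : gb q m 0 = 1 := by cases m <;> rfl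

theorem gb_succ (q : R) (m k : ℕ) :
    gb q (m + 1) (k + 1) = gb q m k + q ^ (k + 1) * gb q m (k + 1) := rfl

theorem gb_eq_zero (q : R) : ∀ (m k : ℕ), m < k → gb q m k = 0
  | 0, 0, h => absurd h (lt_irrefl _)
  | 0, k + 1, _ => rfl
  | m + 1, 0, h => absurd h (by omega)
  | m + 1, k + 1, h => by
    rw [gb_succ, gb_eq_zero q m k (by omega), gb_eq_zero q m (k + 1) (by omega)]; ring

theorem gb_self (q : R) : ∀ m : ℕ, gb q m m = 1
  | 0 => rfl
  | m + 1 => by rw [gb_succ, gb_self q m, gb_eq_zero q m (m + 1) (by omega)]; ring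

theorem gb_A (q : R) : ∀ (m k : ℕ),
    (1 - q ^ (k + 1)) * gb q (m + 1) (k + 1) = (1 - q ^ (m + 1)) * gb q m k
  | 0, 0 => by rw [gb_succ, gb_zero_right, gb_eq_zero q 0 1 (by omega)]; ring
  | 0, k + 1 => by
    rw [gb_eq_zero q (0 + 1) (k + 1 + 1) (by omega), gb_eq_zero q 0 (k + 1) (by omega)]; ring
  | m + 1, 0 => by
    have h := gb_A q m 0
    rw [gb_succ, gb_zero_right]
    rw [gb_zero_right] at h
    linear_combination q * h
  | m + 1, j + 1 => by
    have h1 := gb_A q m j
    have h2 := gb_A q m (j + 1)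
    have h3 := gb_succ q m j
    rw [gb_succ q (m + 1) (j + 1)]
    linear_combination q ^ (j + 2) * h2 + q * h1 - q * (1 - q ^ (m + 1)) * h3

/-- the second Pascal rule -/
theorem gb_P2 (q : R) : ∀ (m k : ℕ), k ≤ m →
    gb q (m + 1) (k + 1) = q ^ (m - k) * gb q m k + gb q m (k + 1)
  | 0, 0, _ => by
    rw [gb_succ, gb_zero_right, gb_eq_zero q 0 1 (by omega)]; ring
  | 0, k + 1, h => absurd h (by omega)
  | m + 1, 0, _ => by
    have h := gb_P2 q m 0 (by omega)
    have h1 := gb_succ q m 0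
    rw [gb_succ, gb_zero_right, Nat.sub_zero]
    rw [gb_zero_right] at h h1
    rw [Nat.sub_zero] at h
    linear_combination (q - 1) * h1 + (-q) * h1 + q * h
  | m + 1, j + 1, hj => by
    have hj' : j ≤ m := by omega
    have h1 := gb_P2 q m j hj'
    have e1 : m + 1 - (j + 1) = m - j := by omega
    rw [e1]
    rcases Nat.lt_or_ge m (j + 1) with h | h
    · have e2 : j = m := by omega
      subst e2
      rw [gb_self, gb_self, gb_eq_zero q (j + 1) (j + 1 + 1) (by omega), Nat.sub_self]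
      ring
    · have h2 := gb_P2 q m (j + 1) h
      have e2 : m - j = m - (j + 1) + 1 := by omega
      rw [gb_succ q (m + 1) (j + 1)]
      have h3 := gb_succ q m j
      have h4 : q ^ m = q ^ (m - (j + 1)) * q ^ (j + 1) := by
        rw [← pow_add]; congr 1; omega
      rw [e2] at h1 ⊢
      have h5 := gb_succ q m (j + 1)
      linear_combination h1 + (q ^ (j + 2) - 1 + 1) * h2 + (-1) * h5 +
        (-(q ^ (m - (j + 1) + 1))) * h3

theorem gb_B (q : R) (m k : ℕ) (hk : k ≤ m + 1) :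
    (1 - q ^ (m + 1 - k)) * gb q (m + 1) k = (1 - q ^ (m + 1)) * gb q m k := by
  rcases k with _ | j
  · rw [gb_zero_right, gb_zero_right, Nat.sub_zero]
  · have h1 := gb_P2 q m j (by omega)
    have h2 := gb_succ q m j
    have e1 : m + 1 - (j + 1) = m - j := by omega
    rw [e1]
    have h3 : q ^ (m + 1) = q ^ (m - j) * q ^ (j + 1) := by
      rw [← pow_add]; congr 1; omega
    rw [h3]
    linear_combination h1 - q ^ (m - j) * h2

theorem poch_succ (q : R) (m : ℕ) : poch q (m + 1) = poch q m * (1 - q ^ (m + 1)) := by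
  rw [poch, prod_range_succ]; rfl

/-- the quotient formula -/
theorem gb_poch (q : R) : ∀ (m k : ℕ), k ≤ m →
    poch q k * poch q (m - k) * gb q m k = poch q m
  | 0, 0, _ => by rw [gb_zero_right]; simp [poch]
  | 0, k + 1, h => absurd h (by omega)
  | m + 1, 0, _ => by rw [gb_zero_right]; simp [poch]
  | m + 1, k + 1, h => by
    have h1 := gb_poch q m k (by omega)
    have h2 := gb_A q m k
    rw [show m + 1 - (k + 1) = m - k by omega, poch_succ, poch_succ]
    linear_combination (1 - q ^ (m + 1)) * h1 + poch q k * poch q (m - k) * h2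

/-- the moments -/
def gs (a q : R) (r : ℕ) : R := ∑ j ∈ range (r + 1), gb q r j * a ^ j

theorem gs_zero (a q : R) : gs a q 0 = 1 := by simp [gs, gb_zero_right]

theorem gs_one (a q : R) : gs a q 1 = 1 + a := by
  simp [gs, sum_range_succ, gb_zero_right, gb_self]

theorem gs_rec (a q : R) (r : ℕ) :
    gs a q (r + 2) = (1 + a) * gs a q (r + 1) - a * (1 - q ^ (r + 1)) * gs a q r := by
  have h0 : gs a q (r + 2) = ∑ j ∈ range (r + 2), gb q (r + 2) (j + 1) * a ^ (j + 1) + 1 := by
    rw [gs, sum_range_succ', gb_zero_right]; simp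
  have h1 : gs a q (r + 1) = ∑ j ∈ range (r + 2), gb q (r + 1) (j + 1) * a ^ (j + 1) + 1 := by
    rw [sum_range_succ, gb_eq_zero q (r + 1) (r + 1 + 1) (by omega), gs, sum_range_succ',
      gb_zero_right]; simp
  have h2 : gs a q (r + 1) = ∑ j ∈ range (r + 2), gb q (r + 1) j * a ^ j := rfl
  have h3 : gs a q r = ∑ j ∈ range (r + 2), gb q r j * a ^ j := by
    rw [sum_range_succ, gb_eq_zero q r (r + 1) (by omega), gs]; simp
  have h4 : ∑ j ∈ range (r + 2), gb q (r + 2) (j + 1) * a ^ (j + 1) =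
      a * ∑ j ∈ range (r + 2), gb q (r + 1) j * a ^ j +
      ∑ j ∈ range (r + 2), gb q (r + 1) (j + 1) * a ^ (j + 1) -
      a * (1 - q ^ (r + 1)) * ∑ j ∈ range (r + 2), gb q r j * a ^ j := by
    rw [mul_sum, mul_sum, ← sum_add_distrib, ← sum_sub_distrib]
    refine sum_congr rfl fun j _ => ?_
    have h5 := gb_succ q (r + 1) j
    have h6 := gb_A q r j
    rw [h5]
    linear_combination (-(a ^ (j + 1))) * h6
  rw [h0, h4, ← h2, ← h3]
  linear_combination (-1 : R) * h1

/-- the second family of polynomials -/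
def ff (a Q : R) (n : ℕ) : R :=
  ∑ k ∈ range (n + 1), Q ^ (k.choose 2 + (n - k).choose 2) * gb Q n k * a ^ k

theorem ff_zero (a Q : R) : ff a Q 0 = 1 := by simp [ff, gb_zero_right]

theorem ff_one (a Q : R) : ff a Q 1 = 1 + a := by
  simp [ff, sum_range_succ, gb_zero_right, gb_self]

theorem choose_two_succ (k : ℕ) : (k + 1).choose 2 = k.choose 2 + k := by
  have h := Nat.choose_succ_succ' k 1
  rw [Nat.choose_one_right] at h
  exact h.trans (Nat.add_comm _ _)

theorem ff_rec (a Q : R) (n : ℕ) :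
    ff a Q (n + 2) = (a + 1) * Q ^ (n + 1) * ff a Q (n + 1) +
      a * Q ^ n * (1 - Q ^ (n + 1)) * ff a Q n := by
  have h0 : ff a Q (n + 2) = ∑ k ∈ range (n + 2),
      Q ^ ((k + 1).choose 2 + (n + 2 - (k + 1)).choose 2) * gb Q (n + 2) (k + 1) * a ^ (k + 1) +
      Q ^ ((n + 2).choose 2) := by
    rw [ff, sum_range_succ', gb_zero_right]; simp
  have h1 : ff a Q (n + 1) = ∑ k ∈ range (n + 2),
      Q ^ ((k + 1).choose 2 + (n + 1 - (k + 1)).choose 2) * gb Q (n + 1) (k + 1) * a ^ (k + 1) +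
      Q ^ ((n + 1).choose 2) := by
    rw [sum_range_succ, gb_eq_zero Q (n + 1) (n + 1 + 1) (by omega), ff, sum_range_succ',
      gb_zero_right]; simp
  have h2 : ff a Q (n + 1) = ∑ k ∈ range (n + 2),
      Q ^ (k.choose 2 + (n + 1 - k).choose 2) * gb Q (n + 1) k * a ^ k := rfl
  have h3 : ff a Q n = ∑ k ∈ range (n + 2),
      Q ^ (k.choose 2 + (n - k).choose 2) * gb Q n k * a ^ k := by
    rw [sum_range_succ, gb_eq_zero Q n (n + 1) (by omega), ff]; simp
  have h4 : ∑ k ∈ range (n + 2),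
      Q ^ ((k + 1).choose 2 + (n + 2 - (k + 1)).choose 2) * gb Q (n + 2) (k + 1) * a ^ (k + 1) =
      Q ^ (n + 1) * ∑ k ∈ range (n + 2),
      Q ^ ((k + 1).choose 2 + (n + 1 - (k + 1)).choose 2) * gb Q (n + 1) (k + 1) * a ^ (k + 1) +
      a * Q ^ (n + 1) * ∑ k ∈ range (n + 2),
      Q ^ (k.choose 2 + (n + 1 - k).choose 2) * gb Q (n + 1) k * a ^ k +
      a * Q ^ n * (1 - Q ^ (n + 1)) * ∑ k ∈ range (n + 2),
      Q ^ (k.choose 2 + (n - k).choose 2) * gb Q n k * a ^ k := by
    rw [mul_sum, mul_sum, mul_sum, ← sum_add_distrib, ← sum_add_distrib]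
    refine sum_congr rfl fun k hk => ?_
    rw [mem_range] at hk
    rcases Nat.lt_or_ge n k with h | h
    · have e : k = n + 1 := by omega
      subst e
      rw [gb_self, gb_eq_zero Q (n + 1) (n + 1 + 1) (by omega), gb_self,
        gb_eq_zero Q n (n + 1) (by omega), show n + 2 - (n + 1 + 1) = 0 by omega,
        show n + 1 - (n + 1) = 0 by omega, choose_two_succ (n + 1)]
      simp only [Nat.choose_zero_succ, add_zero]
      ring
    · have e1 : n + 2 - (k + 1) = (n - k) + 1 := by omega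
      have e2 : n + 1 - (k + 1) = n - k := by omega
      have e3 : n + 1 - k = (n - k) + 1 := by omega
      have h5 := gb_succ Q (n + 1) k
      have h6 := gb_B Q n k (by omega)
      rw [e3] at h6
      rw [e1, e2, e3, choose_two_succ, choose_two_succ, h5]
      have h7 : Q ^ n = Q ^ k * Q ^ (n - k) := by rw [← pow_add]; congr 1; omega
      have h8 : Q ^ (n + 1) = Q * (Q ^ k * Q ^ (n - k)) := by rw [← h7]; ring
      rw [h8] at h6 ⊢
      rw [h7]
      have h9 : Q ^ (k.choose 2 + k + ((n - k).choose 2 + (n - k))) =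
        Q ^ (k.choose 2) * Q ^ ((n - k).choose 2) * (Q ^ k * Q ^ (n - k)) := by
        rw [← pow_add, ← pow_add, ← pow_add]; congr 1; omega
      have h10 : Q ^ (k.choose 2 + k + (n - k).choose 2) =
        Q ^ (k.choose 2) * Q ^ ((n - k).choose 2) * Q ^ k := by
        rw [← pow_add, ← pow_add]; congr 1; omega
      have h11 : Q ^ (k.choose 2 + ((n - k).choose 2 + (n - k))) =
        Q ^ (k.choose 2) * Q ^ ((n - k).choose 2) * Q ^ (n - k) := by
        rw [← pow_add, ← pow_add]; congr 1; omega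
      have h12 : Q ^ (k.choose 2 + (n - k).choose 2) =
        Q ^ (k.choose 2) * Q ^ ((n - k).choose 2) := pow_add _ _ _
      rw [h9, h10, h11, h12]
      linear_combination (a ^ (k + 1) * Q ^ (k.choose 2) * Q ^ ((n - k).choose 2) *
        (Q ^ k * Q ^ (n - k))) * h6
  rw [h0, h4, ← h2, ← h3, choose_two_succ (n + 1), pow_add]
  linear_combination (-(Q ^ (n + 1))) * h1

end Pool.Agent.Helper395.AC
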