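import Pool.Agent.Helper395.AC.Gauss

/-! The Al-Salam-Carlitz polynomials, their functional and the two skew forms. -/

set_option autoImplicit false

namespace Pool.Agent.Helper395.AC

open Finset Polynomial

variable {R : Type*} [CommRing R] (a q : R)

/-- the polynomials -/
noncomputable def U : ℕ → R[X]
  | 0 => 1
  | 1 => X - C (1 + a)
  | k + 2 => (X - C ((1 + a) * q ^ (k + 1))) * U (k + 1) + C (a * q ^ k * (1 - q ^ (k + 1))) * U k

theorem U_add_two (k : ℕ) : U a q (k + 2) =
    (X - C ((1 + a) * q ^ (k + 1))) * U a q (k + 1) +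
      C (a * q ^ k * (1 - q ^ (k + 1))) * U a q k := by
  rw [U]

theorem U_zero : U a q 0 = 1 := by rw [U]

theorem U_one : U a q 1 = X - C (1 + a) := by rw [U]

/-- the moment functional -/
noncomputable def L : R[X] →ₗ[R] R :=
  Polynomial.lsum fun i => (gs a q i) • (LinearMap.id : R →ₗ[R] R)

theorem L_monomial (i : ℕ) (c : R) : L a q (monomial i c) = gs a q i * c := by
  rw [L, Polynomial.lsum_apply, Polynomial.sum_monomial_index]
  · simp
  · simp

theorem L_X_pow (i : ℕ) : L a q (X ^ i) = gs a q i := by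
  rw [X_pow_eq_monomial, L_monomial, mul_one]

theorem L_C_mul (c : R) (f : R[X]) : L a q (C c * f) = c * L a q f := by
  rw [C_mul', map_smul, smul_eq_mul]

/-- `(q^{t+1};q)_k` -/
def W (t k : ℕ) : R := ∏ i ∈ range k, (1 - q ^ (t + 1 + i))

theorem W_zero (t : ℕ) : W q t 0 = 1 := by simp [W]

theorem W_succ (t k : ℕ) : W q t (k + 1) = W q t k * (1 - q ^ (t + 1 + k)) := by
  rw [W, prod_range_succ]; rfl

theorem W_succ' (t k : ℕ) : W q t (k + 1) = (1 - q ^ (t + 1)) * W q (t + 1) k := by
  rw [W, prod_range_succ', W, mul_comm]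
  congr 1
  refine prod_congr rfl fun i _ => ?_
  rw [show t + 1 + (i + 1) = t + 1 + 1 + i by omega]

theorem W_poch (k : ℕ) : W q 0 k = poch q k := by
  rw [W, poch]
  refine prod_congr rfl fun i _ => ?_
  rw [show 0 + 1 + i = i + 1 by omega]

/-- the norms -/
def hh (k : ℕ) : R := (-a) ^ k * q ^ (k.choose 2) * poch q k

theorem E_step (r k : ℕ) : L a q (X ^ r * U a q (k + 2)) =
    L a q (X ^ (r + 1) * U a q (k + 1)) - (1 + a) * q ^ (k + 1) * L a q (X ^ r * U a q (k + 1)) +
      a * q ^ k * (1 - q ^ (k + 1)) * L a q (X ^ r * U a q k) := by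
  rw [U_add_two]
  have h : X ^ r * ((X - C ((1 + a) * q ^ (k + 1))) * U a q (k + 1) +
      C (a * q ^ k * (1 - q ^ (k + 1))) * U a q k) =
      X ^ (r + 1) * U a q (k + 1) - C ((1 + a) * q ^ (k + 1)) * (X ^ r * U a q (k + 1)) +
      C (a * q ^ k * (1 - q ^ (k + 1))) * (X ^ r * U a q k) := by ring
  rw [h, map_add, map_sub, L_C_mul, L_C_mul]

theorem E_key : ∀ k : ℕ, (∀ r, r < k → L a q (X ^ r * U a q k) = 0) ∧
    (∀ t, L a q (X ^ (t + k) * U a q k) = (-a) ^ k * q ^ (k.choose 2) * W q t k * gs a q t)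
  | 0 => by
    refine ⟨fun r hr => absurd hr (Nat.not_lt_zero _), fun t => ?_⟩
    rw [U_zero, mul_one, L_X_pow, W_zero]; simp
  | 1 => by
    have h0 : ∀ r, L a q (X ^ r * U a q 1) = gs a q (r + 1) - (1 + a) * gs a q r := by
      intro r
      rw [U_one, mul_sub, mul_comm _ (C (1 + a)), map_sub, L_C_mul, ← pow_succ, L_X_pow, L_X_pow]
    refine ⟨fun r hr => ?_, fun t => ?_⟩
    · have e : r = 0 := by omega
      subst e
      rw [h0, gs_zero, gs_one]; ring
    · rw [h0, W_succ, W_zero, gs_rec]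
      rw [show Nat.choose 1 2 = 0 from rfl]
      ring
  | k + 2 => by
    obtain ⟨z1, e1⟩ := E_key (k + 1)
    obtain ⟨z0, e0⟩ := E_key k
    have c1 := choose_two_succ k
    have c2 := choose_two_succ (k + 1)
    refine ⟨fun r hr => ?_, fun t => ?_⟩
    · rw [E_step]
      rcases Nat.lt_trichotomy r k with h | h | h
      · rw [z1 (r + 1) (by omega), z1 r (by omega), z0 r h]; ring
      · subst h
        have f1 := e1 0
        have f0 := e0 0
        rw [zero_add, gs_zero] at f1 f0
        rw [z1 r (by omega), f1, f0, W_succ, c1, pow_add, zero_add]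
        ring
      · have e : r = k + 1 := by omega
        subst e
        have f1 := e1 1
        have f2 := e1 0
        have f0 := e0 1
        rw [zero_add, gs_zero] at f2
        rw [show 1 + (k + 1) = k + 1 + 1 by omega] at f1
        rw [show 1 + k = k + 1 by omega] at f0
        rw [f1, f2, f0, W_succ, W_succ', c1, pow_add, zero_add, gs_one]
        ring
    · rw [E_step]
      have f1 := e1 (t + 2)
      have f2 := e1 (t + 1)
      have f0 := e0 (t + 2)
      rw [show t + 2 + (k + 1) = t + (k + 2) + 1 by omega] at f1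
      rw [show t + 1 + (k + 1) = t + (k + 2) by omega] at f2
      rw [show t + 2 + k = t + (k + 2) by omega] at f0
      rw [f1, f2, f0, c2, c1, W_succ q (t + 2) k, W_succ' q (t + 1) k, W_succ' q t (k + 1),
        W_succ' q (t + 1) k, show t + 1 + 1 = t + 2 by omega]
      have hr := gs_rec a q t
      linear_combination ((-a) ^ (k + 1) * q ^ (k.choose 2) * q ^ k * W q (t + 2) k *
        q ^ (k + 1) * (1 - q ^ (t + 2))) * hr

theorem L_U_lt {r k : ℕ} (h : r < k) : L a q (X ^ r * U a q k) = 0 := (E_key a q k).1 r h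

theorem L_U_self (k : ℕ) : L a q (X ^ k * U a q k) = hh a q k := by
  have h := (E_key a q k).2 0
  rw [zero_add, gs_zero, mul_one, W_poch] at h
  exact h

theorem L_mul_U {f : R[X]} {k : ℕ} (hf : f.natDegree ≤ k) :
    L a q (f * U a q k) = f.coeff k * hh a q k := by
  have h := f.as_sum_range_C_mul_X_pow' (show f.natDegree < k + 1 by omega)
  conv_lhs => rw [h]
  rw [sum_mul, map_sum, sum_range_succ, sum_eq_zero, zero_add, mul_assoc, L_C_mul, L_U_self]
  intro i hi
  rw [mul_assoc, L_C_mul, L_U_lt a q (mem_range.1 hi), mul_zero]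

theorem L_mul_U_lt {f : R[X]} {k : ℕ} (hf : f.natDegree < k) :
    L a q (f * U a q k) = 0 := by
  rw [L_mul_U a q (by omega), coeff_eq_zero_of_natDegree_lt hf, zero_mul]

theorem U_deg : ∀ k : ℕ, (U a q k).natDegree ≤ k ∧ (U a q k).coeff k = 1
  | 0 => by rw [U_zero]; simp
  | 1 => by
    rw [U_one]
    refine ⟨natDegree_X_sub_C_le _, ?_⟩
    rw [coeff_sub, coeff_X_one, coeff_C_succ, sub_zero]
  | k + 2 => by
    obtain ⟨d1, c1⟩ := U_deg (k + 1)
    obtain ⟨d0, c0⟩ := U_deg k
    rw [U_add_two]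
    refine ⟨?_, ?_⟩
    · refine natDegree_add_le_of_degree_le ?_ ?_
      · refine natDegree_mul_le.trans ?_
        have := natDegree_X_sub_C_le ((1 + a) * q ^ (k + 1))
        omega
      · refine natDegree_mul_le.trans ?_
        rw [natDegree_C]
        omega
    · rw [coeff_add, sub_mul, coeff_sub, coeff_X_mul, c1, coeff_C_mul, coeff_C_mul,
        coeff_eq_zero_of_natDegree_lt (show (U a q (k + 1)).natDegree < k + 2 by omega),
        coeff_eq_zero_of_natDegree_lt (show (U a q k).natDegree < k + 2 by omega)]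
      ring

/-- the operator `X^i ↦ (q^i - 1) X^{i-1}` -/
noncomputable def dl : R[X] →ₗ[R] R[X] :=
  Polynomial.lsum fun i => (q ^ i - 1) • (monomial (i - 1) : R →ₗ[R] R[X])

theorem dl_monomial (i : ℕ) (c : R) : dl q (monomial i c) = monomial (i - 1) ((q ^ i - 1) * c) := by
  rw [dl, Polynomial.lsum_apply, Polynomial.sum_monomial_index]
  · simp [smul_monomial]
  · simp

theorem dl_X_pow (i : ℕ) : dl q (X ^ i) = C (q ^ i - 1) * X ^ (i - 1) := by
  rw [X_pow_eq_monomial, dl_monomial, mul_one, C_mul_X_pow_eq_monomial]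

theorem dl_C_mul (c : R) (f : R[X]) : dl q (C c * f) = C c * dl q f := by
  rw [C_mul', C_mul', map_smul]

theorem dl_X_mul (f : R[X]) : dl q (X * f) = C (q - 1) * f + C q * (X * dl q f) := by
  induction f using Polynomial.induction_on' with
  | add f g hf hg => rw [mul_add, map_add, hf, hg, map_add]; ring
  | monomial i c =>
    rw [X_mul_monomial, dl_monomial, dl_monomial, X_mul_monomial, C_mul_monomial, C_mul_monomial]
    rcases i with _ | j
    · simp
    · rw [show j + 1 + 1 - 1 = j + 1 by omega, show j + 1 - 1 + 1 = j + 1 by omega,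
        ← map_add]
      congr 1
      ring

theorem dl_one : dl q (1 : R[X]) = 0 := by
  have h := dl_X_pow q 0
  rw [pow_zero, pow_zero, sub_self, C_0, zero_mul] at h
  exact h

theorem dl_X : dl q (X : R[X]) = C (q - 1) := by
  have h := dl_X_pow q 1
  rw [pow_one, pow_one, Nat.sub_self, pow_zero, mul_one] at h
  exact h

theorem dl_C (c : R) : dl q (C c) = 0 := by
  rw [← mul_one (C c), dl_C_mul, dl_one, mul_zero]

theorem dl_U : ∀ k : ℕ, dl q (U a q (k + 1)) = C (q ^ (k + 1) - 1) * U a q k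
  | 0 => by
    rw [U_one, map_sub, dl_X, dl_C, U_zero]; simp
  | 1 => by
    rw [U_add_two, sub_mul, map_add, map_sub, dl_X_mul, dl_C_mul, dl_C_mul, U_zero, dl_one,
      dl_U 0, U_zero, U_one]
    simp only [map_sub, map_add, map_mul, map_pow, map_one]
    ring
  | k + 2 => by
    rw [U_add_two a q (k + 1), sub_mul, map_add, map_sub, dl_X_mul, dl_C_mul, dl_C_mul,
      dl_U (k + 1), dl_U k]
    have h := U_add_two a q k
    simp only [map_sub, map_add, map_mul, map_pow, map_one] at h ⊢
    linear_combination (-(((C q) ^ (k + 2) - 1) * (C q))) * h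

/-- first form -/
noncomputable def B1 (f g : R[X]) : R := L a q (dl q f * g - f * dl q g)

/-- second form -/
noncomputable def B2 (f g : R[X]) : R := L a q (X * (dl q f * g - f * dl q g))

theorem B1_monomial (i j : ℕ) :
    B1 a q (X ^ i) (X ^ j) = (q ^ i - q ^ j) * gs a q (i + j - 1) := by
  rw [B1, dl_X_pow, dl_X_pow]
  rcases i with _ | i
  · rcases j with _ | j
    · simp
    · simp only [pow_zero, sub_self, map_zero, zero_mul, one_mul, zero_sub, map_neg, L_C_mul,
        L_X_pow, zero_add]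
      ring
  · rcases j with _ | j
    · simp only [pow_zero, sub_self, map_zero, zero_mul, mul_zero, mul_one, sub_zero, L_C_mul,
        L_X_pow, add_zero]
    · have e : C (q ^ (i + 1) - 1) * X ^ (i + 1 - 1) * X ^ (j + 1) -
          X ^ (i + 1) * (C (q ^ (j + 1) - 1) * X ^ (j + 1 - 1)) =
          C (q ^ (i + 1) - q ^ (j + 1)) * X ^ (i + 1 + (j + 1) - 1) := by
        rw [show i + 1 - 1 = i by omega, show j + 1 - 1 = j by omega,
          show i + 1 + (j + 1) - 1 = i + j + 1 by omega]
        simp only [map_sub]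
        ring
      rw [e, L_C_mul, L_X_pow]

theorem B2_monomial (i j : ℕ) :
    B2 a q (X ^ i) (X ^ j) = (q ^ i - q ^ j) * gs a q (i + j) := by
  rw [B2, dl_X_pow, dl_X_pow]
  rcases i with _ | i
  · rcases j with _ | j
    · simp
    · have e : (X : R[X]) * (C (q ^ 0 - 1) * X ^ (0 - 1) * X ^ (j + 1) -
          X ^ 0 * (C (q ^ (j + 1) - 1) * X ^ (j + 1 - 1))) =
          C (q ^ 0 - q ^ (j + 1)) * X ^ (0 + (j + 1)) := by
        rw [show j + 1 - 1 = j by omega]
        simp only [map_sub, pow_zero, sub_self, map_zero, map_one, zero_add]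
        ring
      rw [e, L_C_mul, L_X_pow]
  · rcases j with _ | j
    · have e : (X : R[X]) * (C (q ^ (i + 1) - 1) * X ^ (i + 1 - 1) * X ^ 0 -
          X ^ (i + 1) * (C (q ^ 0 - 1) * X ^ (0 - 1))) =
          C (q ^ (i + 1) - q ^ 0) * X ^ (i + 1 + 0) := by
        rw [show i + 1 - 1 = i by omega]
        simp only [map_sub, pow_zero, sub_self, map_zero, map_one, add_zero]
        ring
      rw [e, L_C_mul, L_X_pow]
    · have e : (X : R[X]) * (C (q ^ (i + 1) - 1) * X ^ (i + 1 - 1) * X ^ (j + 1) -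
          X ^ (i + 1) * (C (q ^ (j + 1) - 1) * X ^ (j + 1 - 1))) =
          C (q ^ (i + 1) - q ^ (j + 1)) * X ^ (i + 1 + (j + 1)) := by
        rw [show i + 1 - 1 = i by omega, show j + 1 - 1 = j by omega]
        simp only [map_sub]
        ring
      rw [e, L_C_mul, L_X_pow]

theorem B1_near (k : ℕ) : B1 a q (U a q (k + 1)) (U a q k) = (q ^ (k + 1) - 1) * hh a q k := by
  have h1 := (U_deg a q (k + 1)).1
  rw [B1, map_sub, dl_U, mul_assoc, L_C_mul, L_mul_U a q (U_deg a q k).1, (U_deg a q k).2, one_mul]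
  have h2 : L a q (U a q (k + 1) * dl q (U a q k)) = 0 := by
    rcases k with _ | j
    · rw [U_zero, dl_one, mul_zero, map_zero]
    · rw [dl_U, mul_comm, mul_assoc, L_C_mul,
        L_mul_U_lt a q (show (U a q j).natDegree < j + 1 + 1 by
          have := (U_deg a q j).1; omega), mul_zero]
  rw [h2, sub_zero]

theorem B1_far {j k : ℕ} (h : k + 2 ≤ j) : B1 a q (U a q j) (U a q k) = 0 := by
  obtain ⟨i, rfl⟩ : ∃ i, j = i + 1 := ⟨j - 1, by omega⟩
  have h1 : L a q (U a q i * U a q k) = 0 := by
    rw [mul_comm]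
    exact L_mul_U_lt a q (by have := (U_deg a q k).1; omega)
  have h2 : L a q (U a q (i + 1) * dl q (U a q k)) = 0 := by
    rcases k with _ | k
    · rw [U_zero, dl_one, mul_zero, map_zero]
    · rw [dl_U, mul_comm, mul_assoc, L_C_mul,
        L_mul_U_lt a q (show (U a q k).natDegree < i + 1 by
          have := (U_deg a q k).1; omega), mul_zero]
  rw [B1, map_sub, dl_U, mul_assoc, L_C_mul, h1, h2]; ring

theorem B2_aux {j k : ℕ} (h : k < j) : L a q (X * (U a q j * dl q (U a q k))) = 0 := by
  rcases k with _ | k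
  · rw [U_zero, dl_one, mul_zero, mul_zero, map_zero]
  · rw [dl_U]
    have e : X * (U a q j * (C (q ^ (k + 1) - 1) * U a q k)) =
        C (q ^ (k + 1) - 1) * ((X * U a q k) * U a q j) := by ring
    rw [e, L_C_mul, L_mul_U_lt a q, mul_zero]
    have h1 := (U_deg a q k).1
    have h2 : (X * U a q k).natDegree ≤ 1 + k :=
      natDegree_mul_le.trans (by have := natDegree_X_le (R := R); omega)
    omega

theorem B2_eq {i k : ℕ} (h : k < i + 1) : B2 a q (U a q (i + 1)) (U a q k) =
    (q ^ (i + 1) - 1) * L a q (X * U a q k * U a q i) := by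
  rw [B2, mul_sub, map_sub, B2_aux a q h, sub_zero, dl_U]
  have e : X * (C (q ^ (i + 1) - 1) * U a q i * U a q k) =
      C (q ^ (i + 1) - 1) * (X * U a q k * U a q i) := by ring
  rw [e, L_C_mul]

theorem X_mul_U_deg (k : ℕ) : (X * U a q k).natDegree ≤ k + 1 := by
  have h1 := (U_deg a q k).1
  exact natDegree_mul_le.trans (by have := natDegree_X_le (R := R); omega)

theorem B2_two (k : ℕ) : B2 a q (U a q (k + 2)) (U a q k) =
    (q ^ (k + 2) - 1) * hh a q (k + 1) := by
  rw [B2_eq a q (show k < k + 1 + 1 by omega), L_mul_U a q (X_mul_U_deg a q k), coeff_X_mul,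
    (U_deg a q k).2, one_mul]

theorem B2_far {j k : ℕ} (h : k + 3 ≤ j) : B2 a q (U a q j) (U a q k) = 0 := by
  obtain ⟨i, rfl⟩ : ∃ i, j = i + 1 := ⟨j - 1, by omega⟩
  rw [B2_eq a q (show k < i + 1 by omega), L_mul_U_lt a q, mul_zero]
  have := X_mul_U_deg a q k
  omega

theorem B2_near (k : ℕ) : B2 a q (U a q (k + 1)) (U a q k) =
    (q ^ (k + 1) - 1) * ((1 + a) * q ^ k * hh a q k) := by
  rw [B2_eq a q (show k < k + 1 by omega)]
  congr 1
  rcases k with _ | k
  · have e : (X : R[X]) * U a q 0 * U a q 0 = U a q 1 + C (1 + a) * U a q 0 := by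
      rw [U_zero, U_one]; ring
    rw [e, map_add, L_C_mul]
    have h1 : L a q (U a q 1) = 0 := by
      have := L_mul_U_lt a q (f := 1) (k := 1) (by simp)
      rwa [one_mul] at this
    have h0 : L a q (U a q 0) = hh a q 0 := by
      have := L_U_self a q 0
      rwa [pow_zero, one_mul] at this
    rw [h1, h0]; ring
  · have e : X * U a q (k + 1) * U a q (k + 1) =
        U a q (k + 1) * U a q (k + 2) +
        C ((1 + a) * q ^ (k + 1)) * (U a q (k + 1) * U a q (k + 1)) -
        C (a * q ^ k * (1 - q ^ (k + 1))) * (U a q k * U a q (k + 1)) := by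
      have h := U_add_two a q k
      linear_combination (-(U a q (k + 1))) * h
    rw [e, map_sub, map_add, L_C_mul, L_C_mul,
      L_mul_U_lt a q (show (U a q (k + 1)).natDegree < k + 2 by
        have := (U_deg a q (k + 1)).1; omega),
      L_mul_U_lt a q (show (U a q k).natDegree < k + 1 by have := (U_deg a q k).1; omega),
      L_mul_U a q (U_deg a q (k + 1)).1, (U_deg a q (k + 1)).2]
    ring

end Pool.Agent.Helper395.AC
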